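import Mathlib
import Pool.Agent.helper23.TS.Defs

/-!
# Module ts:EXP

An expansive integer matrix gives an expanding system.
-/

set_option autoImplicit false

namespace Pool.Agent.helper23.TS

open scoped ENNReal NNReal Matrix Matrix.Norms.Operator

/-- all complex eigenvalues have modulus greater than one -/
def Expansive {d : ℕ} (R : Matrix (Fin d) (Fin d) ℤ) : Prop :=
  ∀ z : ℂ, (R.map (Int.castRingHom ℂ)).charpoly.IsRoot z → 1 < ‖z‖

/-- Powers of an element of spectral radius less than one are summable. -/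
theorem EXP_summable {A : Type*} [NormedRing A] [NormedAlgebra ℂ A] [CompleteSpace A] (a : A)
    (h : spectralRadius ℂ a < 1) : Summable fun n : ℕ => ‖a ^ n‖ := by
  obtain ⟨r, hr1, hr2⟩ := ENNReal.lt_iff_exists_nnreal_btwn.1 h
  have hr3 : (r : ℝ) < 1 := by exact_mod_cast hr2
  have ht := spectrum.pow_nnnorm_pow_one_div_tendsto_nhds_spectralRadius a
  have hev := ht.eventually (gt_mem_nhds hr1)
  have hgeo : Summable fun n : ℕ => (r : ℝ) ^ n :=
    summable_geometric_of_lt_one r.2 hr3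
  refine summable_of_isBigO_nat hgeo (Asymptotics.IsBigO.of_bound 1 ?_)
  filter_upwards [hev, Filter.eventually_gt_atTop 0] with n hn hn0
  have hn0' : (n : ℝ) ≠ 0 := by positivity
  have h1 : (‖a ^ n‖₊ : ℝ≥0∞) ≤ (r : ℝ≥0∞) ^ n := by
    have h2 : ((‖a ^ n‖₊ : ℝ≥0∞) ^ (1 / n : ℝ)) ^ n = (‖a ^ n‖₊ : ℝ≥0∞) := by
      rw [← ENNReal.rpow_natCast, ← ENNReal.rpow_mul, one_div_mul_cancel hn0', ENNReal.rpow_one]
    rw [← h2]
    exact pow_le_pow_left₀ zero_le hn.le n
  have h3 : ‖a ^ n‖₊ ≤ r ^ n := by exact_mod_cast h1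
  have h4 : ‖a ^ n‖ ≤ (r : ℝ) ^ n := by exact_mod_cast h3
  rw [norm_norm, one_mul, Real.norm_eq_abs]
  exact le_trans h4 (le_abs_self _)

variable {d : ℕ}

theorem EXP_det_ne {R : Matrix (Fin d) (Fin d) ℤ} (h : Expansive R) :
    (R.map (Int.castRingHom ℂ)).det ≠ 0 := by
  intro h0
  have h1 : (R.map (Int.castRingHom ℂ)).charpoly.IsRoot 0 := by
    rw [← Matrix.mem_spectrum_iff_isRoot_charpoly]
    by_contra h2
    have h3 := spectrum.zero_notMem_iff ℂ |>.1 h2
    rw [Matrix.isUnit_iff_isUnit_det, h0] at h3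
    exact not_isUnit_zero h3
  have h2 := h 0 h1
  rw [norm_zero] at h2
  linarith

theorem EXP_spec {R : Matrix (Fin d) (Fin d) ℤ} (h : Expansive R) (k : ℂ)
    (hk : k ∈ spectrum ℂ ((R.map (Int.castRingHom ℂ))⁻¹)) : ‖k‖ < 1 := by
  have hdet := EXP_det_ne h
  have hu : IsUnit (R.map (Int.castRingHom ℂ)).det := isUnit_iff_ne_zero.2 hdet
  obtain ⟨u, hu'⟩ := (Matrix.isUnit_iff_isUnit_det _).2 hu
  rw [← hu', ← Matrix.coe_units_inv] at hk
  have hk0 : k ≠ 0 := by
    rintro rfl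
    exact spectrum.zero_notMem ℂ (u⁻¹).isUnit hk
  have h1 : ((Units.mk0 k hk0 : ℂˣ) : ℂ) ∈ spectrum ℂ ((u⁻¹ : (Matrix (Fin d) (Fin d) ℂ)ˣ) :
      Matrix (Fin d) (Fin d) ℂ) := hk
  rw [spectrum.inv_mem_iff, inv_inv, hu', Matrix.mem_spectrum_iff_isRoot_charpoly] at h1
  have h2 := h _ h1
  have h3 : (((Units.mk0 k hk0)⁻¹ : ℂˣ) : ℂ) = k⁻¹ := by simp
  rw [h3, norm_inv] at h2
  have hpos : 0 < ‖k‖ := norm_pos_iff.2 hk0
  by_contra hge
  push Not at hge
  have : ‖k‖⁻¹ ≤ 1 := inv_le_one_of_one_le₀ hge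
  linarith

theorem EXP_radius {R : Matrix (Fin d) (Fin d) ℤ} (h : Expansive R) :
    spectralRadius ℂ ((R.map (Int.castRingHom ℂ))⁻¹) < 1 := by
  rcases Nat.eq_zero_or_pos d with rfl | hd
  · rw [spectralRadius]
    have : Subsingleton (Matrix (Fin 0) (Fin 0) ℂ) := inferInstance
    rw [spectrum.of_subsingleton]
    simp
  · have : Nonempty (Fin d) := ⟨⟨0, hd⟩⟩
    have h1 := spectrum.spectralRadius_lt_of_forall_lt ((R.map (Int.castRingHom ℂ))⁻¹) (r := 1)
      (fun z hz => by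
        have := EXP_spec h z hz
        exact_mod_cast this)
    exact_mod_cast h1

/-- the complex matrix of a real matrix has the same norm -/
theorem EXP_norm_map (N : Matrix (Fin d) (Fin d) ℝ) : ‖N.map (Complex.ofRealHom)‖ = ‖N‖ := by
  rw [Matrix.linfty_opNorm_def, Matrix.linfty_opNorm_def]
  congr 2
  funext i
  refine Finset.sum_congr rfl (fun j _ => ?_)
  rw [Matrix.map_apply]
  ext
  simp

theorem EXP_map_map (R : Matrix (Fin d) (Fin d) ℤ) :
    (R.map (Int.castRingHom ℝ)).map (Complex.ofRealHom) = R.map (Int.castRingHom ℂ) := by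
  ext i j
  simp

theorem EXP_det_real {R : Matrix (Fin d) (Fin d) ℤ} (h : Expansive R) :
    IsUnit (R.map (Int.castRingHom ℝ)).det := by
  rw [isUnit_iff_ne_zero]
  intro h0
  apply EXP_det_ne h
  rw [← EXP_map_map]
  have h1 := RingHom.map_det Complex.ofRealHom (R.map (Int.castRingHom ℝ))
  rw [h0, map_zero] at h1
  exact h1.symm

theorem EXP_inv_map {R : Matrix (Fin d) (Fin d) ℤ} (h : Expansive R) :
    ((R.map (Int.castRingHom ℝ))⁻¹).map (Complex.ofRealHom) = (R.map (Int.castRingHom ℂ))⁻¹ := by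
  symm
  apply Matrix.inv_eq_left_inv
  rw [← EXP_map_map, ← Matrix.map_mul, Matrix.nonsing_inv_mul _ (EXP_det_real h)]
  exact Matrix.map_one _ (map_zero _) (map_one _)

theorem exists_sys {d : ℕ} (R : Matrix (Fin d) (Fin d) ℤ) (h : Expansive R) :
    ∃ S : Sys d, (∀ x, S.R x = R.mulVec x) ∧
      ∀ x, S.A.symm x = ((R.map (Int.castRingHom ℝ))⁻¹).mulVec x := by
  have hdet := EXP_det_real h
  let e : (Fin d → ℝ) ≃ₗ[ℝ] (Fin d → ℝ) :=
    Matrix.toLin'OfInv (M := (R.map (Int.castRingHom ℝ))⁻¹) (M' := R.map (Int.castRingHom ℝ))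
      (Matrix.nonsing_inv_mul _ hdet) (Matrix.mul_nonsing_inv _ hdet)
  have he : ∀ x, e x = (R.map (Int.castRingHom ℝ)).mulVec x := fun x => rfl
  have hes : ∀ x, e.symm x = ((R.map (Int.castRingHom ℝ))⁻¹).mulVec x := fun x => rfl
  let A : (Fin d → ℝ) ≃L[ℝ] (Fin d → ℝ) := e.toContinuousLinearEquiv
  have hA : ∀ x, A x = (R.map (Int.castRingHom ℝ)).mulVec x := fun x => rfl
  have hAs : ∀ x, A.symm x = ((R.map (Int.castRingHom ℝ))⁻¹).mulVec x := fun x => rfl
  have hpow : ∀ n : ℕ, ((A.symm : (Fin d → ℝ) →L[ℝ] (Fin d → ℝ)) ^ n) =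
      ContinuousLinearMap.mk (Matrix.mulVecLin (((R.map (Int.castRingHom ℝ))⁻¹) ^ n)) := by
    intro n
    induction n with
    | zero =>
      ext x i
      simp
    | succ n ih =>
      rw [pow_succ, ih]
      ext x i
      simp [hAs, pow_succ, Matrix.mulVec_mulVec]
  have hsum : Summable fun n : ℕ => ‖((A.symm : (Fin d → ℝ) →L[ℝ] (Fin d → ℝ)) ^ n)‖ := by
    have h1 := EXP_summable ((R.map (Int.castRingHom ℂ))⁻¹) (EXP_radius h)
    refine h1.congr (fun n => ?_)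
    rw [hpow, ← Matrix.linfty_opNorm_eq_opNorm, ← EXP_inv_map h, ← EXP_norm_map]
    congr 1
    exact (map_pow (Complex.ofRealHom.mapMatrix) ((R.map (Int.castRingHom ℝ))⁻¹) n).symm
  refine ⟨{ R := (Matrix.mulVecLin R).toAddMonoidHom
            A := A
            compat := ?_
            summ := hsum }, fun x => rfl, hAs⟩
  intro x
  rw [hA]
  ext i
  simp [toR, Matrix.mulVec, dotProduct]

end Pool.Agent.helper23.TS
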