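import Mathlib
import Pool.Agent.helper23.TS.Defs

/-!
# Module ts:ALG

Free modules of finite rank over the integers with an injective endomorphism.
-/

set_option autoImplicit false

namespace Pool.Agent.helper23.TS

section ALG

variable {L : Type*} [AddCommGroup L] [Module.Free ℤ L] [Module.Finite ℤ L]

/-- A submodule of the same rank contains a multiple of every element. -/
theorem ALG_tors (A B : Submodule ℤ L) (h : A ≤ B)
    (hr : Module.finrank ℤ A = Module.finrank ℤ B) : ∃ s : ℕ, 0 < s ∧ ∀ b ∈ B, s • b ∈ A := by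
  have e1 : Module.finrank ℤ (A.comap B.subtype) = Module.finrank ℤ B := by
    rw [← hr]
    exact (Submodule.comapSubtypeEquivOfLe h).finrank_eq
  have hfin : Finite (B ⧸ (A.comap B.subtype)) :=
    Submodule.finiteQuotientOfFreeOfRankEq _ e1
  refine ⟨Nat.card (B ⧸ (A.comap B.subtype)), Nat.card_pos, ?_⟩
  intro b hb
  have h1 : Nat.card (B ⧸ (A.comap B.subtype)) •
      (Submodule.Quotient.mk (p := A.comap B.subtype) (⟨b, hb⟩ : B)) = 0 := by
    exact card_nsmul_eq_zero'
  rw [← Submodule.Quotient.mk_smul, Submodule.Quotient.mk_eq_zero] at h1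
  exact h1

omit [Module.Free ℤ L] [Module.Finite ℤ L] in
theorem ALG_inj (R : L →+ L) (hR : Function.Injective R) :
    Function.Injective R.toIntLinearMap := hR

/-- finite index of the image -/
theorem exists_mul_range (R : L →+ L) (hR : Function.Injective R) :
    ∃ q : ℕ, 0 < q ∧ ∀ x : L, ∃ y, q • x = R y := by
  obtain ⟨s, hs, h⟩ := ALG_tors (LinearMap.range R.toIntLinearMap) ⊤ le_top (by
    rw [LinearMap.finrank_range_of_inj (ALG_inj R hR), finrank_top])
  refine ⟨s, hs, fun x => ?_⟩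
  obtain ⟨y, hy⟩ := h x trivial
  exact ⟨y, hy.symm⟩

theorem ALG_finite_quot (R : L →+ L) (hR : Function.Injective R) :
    Finite (L ⧸ LinearMap.range R.toIntLinearMap) :=
  Submodule.finiteQuotientOfFreeOfRankEq _ (LinearMap.finrank_range_of_inj (ALG_inj R hR))

omit [Module.Free ℤ L] [Module.Finite ℤ L] in
theorem ALG_mk_eq (R : L →+ L) (x y : L) :
    (Submodule.Quotient.mk x : L ⧸ LinearMap.range R.toIntLinearMap) = Submodule.Quotient.mk y ↔
      ∃ z, x = y + R z := by
  rw [Submodule.Quotient.eq]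
  constructor
  · rintro ⟨z, hz⟩
    exact ⟨z, by
      have : R z = x - y := hz
      rw [this]; abel⟩
  · rintro ⟨z, hz⟩
    exact ⟨z, by
      show R z = x - y
      rw [hz]; abel⟩

/-- finite complete digit sets exist, extending a given simple set -/
theorem exists_full (R : L →+ L) (hR : Function.Injective R) (B : Set L) (hB : B.Finite)
    (hs : Simple R B) : ∃ E : Set L, E.Finite ∧ B ⊆ E ∧ Simple R E ∧ Full R E := by
  classical
  have hfin := ALG_finite_quot R hR
  have hch : ∀ c : L ⧸ LinearMap.range R.toIntLinearMap, ∃ x : L,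
      Submodule.Quotient.mk x = c ∧ ((∃ b ∈ B, Submodule.Quotient.mk b = c) → x ∈ B) := by
    intro c
    by_cases h : ∃ b ∈ B, (Submodule.Quotient.mk b : L ⧸ LinearMap.range R.toIntLinearMap) = c
    · obtain ⟨b, hb, hc⟩ := h
      exact ⟨b, hc, fun _ => hb⟩
    · obtain ⟨x, hx⟩ := Submodule.Quotient.mk_surjective _ c
      exact ⟨x, hx, fun h' => absurd h' h⟩
  choose s hs1 hs2 using hch
  refine ⟨Set.range s, Set.finite_range s, ?_, ?_, ?_⟩
  · intro b hb
    refine ⟨Submodule.Quotient.mk b, ?_⟩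
    have h1 := hs1 (Submodule.Quotient.mk b)
    have h2 := hs2 (Submodule.Quotient.mk b) ⟨b, hb, rfl⟩
    obtain ⟨z, hz⟩ := (ALG_mk_eq R _ _).1 h1
    exact hs _ h2 _ hb z hz
  · rintro _ ⟨c, rfl⟩ _ ⟨c', rfl⟩ y hy
    have h1 : (Submodule.Quotient.mk (s c) : L ⧸ LinearMap.range R.toIntLinearMap)
        = Submodule.Quotient.mk (s c') := (ALG_mk_eq R _ _).2 ⟨y, hy⟩
    rw [hs1, hs1] at h1
    rw [h1]
  · intro x
    refine ⟨s (Submodule.Quotient.mk x), ⟨_, rfl⟩, ?_⟩
    have h1 := hs1 (Submodule.Quotient.mk x)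
    exact (ALG_mk_eq R _ _).1 h1.symm

/-- the saturation of a subgroup with `R x ∈ Γ → x ∈ Γ` is `R`-invariant. -/
theorem sat_R (R : L →+ L) (hR : Function.Injective R) (Γ : AddSubgroup L)
    (hΓ : ∀ x, R x ∈ Γ → x ∈ Γ) (x : L) (hx : ∃ m : ℕ, 0 < m ∧ m • x ∈ Γ) :
    ∃ m : ℕ, 0 < m ∧ m • R x ∈ Γ := by
  -- the saturation
  let H : Submodule ℤ L :=
    { carrier := {y | ∃ m : ℕ, 0 < m ∧ m • y ∈ Γ}
      zero_mem' := ⟨1, one_pos, by simp⟩
      add_mem' := by
        rintro a b ⟨m, hm, ha⟩ ⟨k, hk, hb⟩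
        refine ⟨m * k, Nat.mul_pos hm hk, ?_⟩
        rw [smul_add]
        refine Γ.add_mem ?_ ?_
        · rw [mul_comm, mul_smul]
          exact Γ.nsmul_mem ha k
        · rw [mul_smul]
          exact Γ.nsmul_mem hb m
      smul_mem' := by
        rintro c a ⟨m, hm, ha⟩
        refine ⟨m, hm, ?_⟩
        rw [smul_comm]
        exact Γ.zsmul_mem ha c }
  obtain ⟨q, hq, hqR⟩ := exists_mul_range R hR
  have hq' : Function.Injective (LinearMap.lsmul ℤ L (q : ℤ)) :=
    LinearMap.lsmul_injective (by exact_mod_cast hq.ne')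
  have hle : H.map (LinearMap.lsmul ℤ L (q : ℤ)) ≤ H.map R.toIntLinearMap := by
    rintro _ ⟨a, ⟨m, hm, ha⟩, rfl⟩
    obtain ⟨y, hy⟩ := hqR a
    refine ⟨y, ⟨m, hm, ?_⟩, ?_⟩
    · apply hΓ
      rw [map_nsmul, ← hy, smul_comm]
      exact Γ.nsmul_mem ha q
    · show R y = (q : ℤ) • a
      rw [← hy, natCast_zsmul]
  have hrank : Module.finrank ℤ (H.map (LinearMap.lsmul ℤ L (q : ℤ)))
      = Module.finrank ℤ (H.map R.toIntLinearMap) := by
    rw [← (Submodule.equivMapOfInjective _ hq' H).finrank_eq,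
      ← (Submodule.equivMapOfInjective _ (ALG_inj R hR) H).finrank_eq]
  obtain ⟨s, hs, h⟩ := ALG_tors _ _ hle hrank
  obtain ⟨a, ⟨m, hm, ha⟩, hax⟩ := h (R x) ⟨x, hx, rfl⟩
  refine ⟨m * s, Nat.mul_pos hm hs, ?_⟩
  rw [mul_smul]
  have h2 : (q : ℤ) • a = s • R x := hax
  rw [← h2, natCast_zsmul, smul_comm]
  exact Γ.nsmul_mem ha q

/-- a subgroup with torsion quotient has finite index -/
theorem ALG_finite_of_tors {G : Type*} [AddCommGroup G] [Module.Finite ℤ G]
    (h : ∀ x : G, ∃ m : ℕ, 0 < m ∧ m • x = 0) : Finite G := by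
  have : AddGroup.FG G := Module.Finite.iff_addGroup_fg.mp inferInstance
  exact AddCommGroup.finite_of_fg_isAddTorsion G (fun x => by
    obtain ⟨m, hm, hx⟩ := h x
    exact isOfFinAddOrder_iff_nsmul_eq_zero.2 ⟨m, hm, hx⟩)

/-- index argument -/
theorem idx_arg (R : L →+ L) (hR : Function.Injective R) (H Γ : AddSubgroup L) (hle : Γ ≤ H)
    (hH : ∀ x ∈ H, R x ∈ H) (htor : ∀ x ∈ H, ∃ m : ℕ, 0 < m ∧ m • x ∈ Γ)
    (hΓ : ∀ x, R x ∈ Γ → x ∈ Γ) :
    (∀ x ∈ Γ, R x ∈ Γ) ∧ ∀ x ∈ H, ∃ γ ∈ Γ, ∃ y ∈ H, x = γ + R y := by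
  classical
  let H' : Submodule ℤ L := AddSubgroup.toIntSubmodule H
  let N : Submodule ℤ H' := (AddSubgroup.toIntSubmodule Γ).comap H'.subtype
  have hfin : Finite (H' ⧸ N) := by
    apply ALG_finite_of_tors
    intro x
    obtain ⟨y, rfl⟩ := Submodule.Quotient.mk_surjective _ x
    obtain ⟨m, hm, hy⟩ := htor y.1 y.2
    refine ⟨m, hm, ?_⟩
    rw [← Submodule.Quotient.mk_smul, Submodule.Quotient.mk_eq_zero]
    exact hy
  have hmk : ∀ x y : H', (Submodule.Quotient.mk x : H' ⧸ N) = Submodule.Quotient.mk y ↔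
      (x : L) - y ∈ Γ := by
    intro x y
    rw [Submodule.Quotient.eq]
    rfl
  have hrep : ∀ c : H' ⧸ N, ∃ x : H', Submodule.Quotient.mk x = c :=
    Submodule.Quotient.mk_surjective _
  choose r hr using hrep
  let g : H' ⧸ N → H' ⧸ N := fun c =>
    Submodule.Quotient.mk (⟨R (r c), hH _ (r c).2⟩ : H')
  have hgdef : ∀ c c' : H' ⧸ N, g c = g c' ↔ R (r c) - R (r c') ∈ Γ := by
    intro c c'
    exact hmk _ _
  have hginj : Function.Injective g := by
    intro c c' h
    rw [hgdef, ← map_sub] at h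
    have h1 := hΓ _ h
    rw [← hmk, hr, hr] at h1
    exact h1
  have hgsurj : Function.Surjective g := Finite.surjective_of_injective hginj
  constructor
  · intro x hx
    obtain ⟨c, hc⟩ := hgsurj (Submodule.Quotient.mk (⟨R x, hH _ (hle hx)⟩ : H'))
    obtain ⟨c0, hc0⟩ := hgsurj 0
    have h1 : R (r c) - R x ∈ Γ := (hmk _ _).1 hc
    rw [← map_sub] at h1
    have h2 : (r c : L) ∈ Γ := by
      have := Γ.add_mem (hΓ _ h1) hx
      simpa using this
    have h3 : R (r c0) ∈ Γ := by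
      have : (Submodule.Quotient.mk (⟨R (r c0), hH _ (r c0).2⟩ : H') : H' ⧸ N) = 0 := hc0
      rw [Submodule.Quotient.mk_eq_zero] at this
      exact this
    have h4 : (r c0 : L) ∈ Γ := hΓ _ h3
    have h5 : c = c0 := by
      rw [← hr c, ← hr c0, hmk]
      exact Γ.sub_mem h2 h4
    have h6 : R (r c) ∈ Γ := by rw [h5]; exact h3
    have h7 : R (r c) - R x ∈ Γ := by rw [← map_sub]; exact h1
    have h8 := Γ.sub_mem h6 h7
    simpa using h8
  · intro x hx
    obtain ⟨c, hc⟩ := hgsurj (Submodule.Quotient.mk (⟨x, hx⟩ : H'))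
    have h1 : R (r c) - x ∈ Γ := (hmk _ _).1 hc
    refine ⟨x - R (r c), ?_, (r c : L), (r c).2, by abel⟩
    have := Γ.neg_mem h1
    simpa using this

/-- a subgroup with torsion quotient has finite index -/
theorem finiteIndex_of_torsion (Γ : AddSubgroup L) (htor : ∀ x : L, ∃ m : ℕ, 0 < m ∧ m • x ∈ Γ) :
    Γ.FiniteIndex := by
  have hfin : Finite (L ⧸ (AddSubgroup.toIntSubmodule Γ)) := by
    apply ALG_finite_of_tors
    intro x
    obtain ⟨y, rfl⟩ := Submodule.Quotient.mk_surjective _ x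
    obtain ⟨m, hm, hy⟩ := htor y
    refine ⟨m, hm, ?_⟩
    rw [← Submodule.Quotient.mk_smul, Submodule.Quotient.mk_eq_zero]
    exact hy
  have hfin2 : Finite (L ⧸ Γ) := hfin
  exact AddSubgroup.finiteIndex_of_finite_quotient

/-- the quotient by a saturated subgroup is free of finite rank -/
theorem free_quotient (W : AddSubgroup L) (hW : ∀ (m : ℕ) (x : L), 0 < m → m • x ∈ W → x ∈ W) :
    Module.Free ℤ (L ⧸ W) ∧ Module.Finite ℤ (L ⧸ W) := by
  have h1 : Module.Finite ℤ (L ⧸ W) :=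
    Module.Finite.of_surjective (QuotientAddGroup.mk' W).toIntLinearMap
      (QuotientAddGroup.mk'_surjective W)
  refine ⟨?_, h1⟩
  have h2 : Module.IsTorsionFree ℤ (L ⧸ W) := by
    apply Module.IsTorsionFree.of_smul_eq_zero
    intro r m hm
    by_cases hr : r = 0
    · exact Or.inl hr
    · right
      obtain ⟨x, rfl⟩ := QuotientAddGroup.mk'_surjective W m
      rw [← map_zsmul] at hm
      have h3 : r • x ∈ W := (QuotientAddGroup.eq_zero_iff _).1 hm
      have h4 : r.natAbs • x ∈ W := by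
        rcases Int.natAbs_eq r with h | h
        · rw [h, natCast_zsmul] at h3
          exact h3
        · rw [h, neg_smul, natCast_zsmul] at h3
          simpa using W.neg_mem h3
      exact (QuotientAddGroup.eq_zero_iff _).2 (hW _ x (Int.natAbs_pos.2 hr) h4)
  exact Module.free_of_finite_type_torsion_free'

end ALG

end Pool.Agent.helper23.TS
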